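import Mathlib

/-!
# The congruence for a product over conjugates, modulo an ideal
-/

set_option autoImplicit false

open Polynomial

namespace Pool.Agent.K8h8.UB

lemma charP_quot {R : Type*} [CommRing R] (I : Ideal R) {p : ℕ} (hp : p.Prime) (hpI : (p : R) ∈ I)
    [Nontrivial (R ⧸ I)] : CharP (R ⧸ I) p := by
  have h4 : (p : R ⧸ I) = 0 := by
    rw [← map_natCast (Ideal.Quotient.mk I), Ideal.Quotient.eq_zero_iff_mem]
    exact hpI
  exact (CharP.charP_iff_prime_eq_zero hp).2 h4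

/-- powers of a congruence -/
lemma sub_pow_mem {R : Type*} [CommRing R] (I : Ideal R) {p : ℕ} (hp : p.Prime) (hpI : (p : R) ∈ I)
    (k : ℕ) {a b : R} (h : (a - b) ^ (p ^ k) ∈ I) : a ^ (p ^ k) - b ^ (p ^ k) ∈ I := by
  have : Fact p.Prime := ⟨hp⟩
  rcases subsingleton_or_nontrivial (R ⧸ I) with h3 | h3
  · rw [← Ideal.Quotient.eq_zero_iff_mem]
    exact Subsingleton.elim _ _
  have := charP_quot I hp hpI
  rw [← Ideal.Quotient.eq_zero_iff_mem] at h ⊢
  rw [map_sub, map_pow, map_pow]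
  rwa [map_pow, map_sub, sub_pow_char_pow] at h

/-- if the `p ^ i`-th powers of the elementary symmetric functions of `Z` are congruent to the
`p ^ j`-th powers of their images under `s` then `∏ (x ^ (p ^ i) - (s z) ^ (p ^ j))` is in the
ideal, for `x ∈ Z` -/
theorem congr_prod_ideal {R : Type*} [CommRing R] (I : Ideal R) (Z : Finset R) (s : R →+* R) {p : ℕ}
    (hp : p.Prime) (hpI : (p : R) ∈ I) (i j : ℕ)
    (hc : ∀ n : ℕ, ((∏ z ∈ Z, (X - C z)).coeff n) ^ (p ^ i) -
      (s ((∏ z ∈ Z, (X - C z)).coeff n)) ^ (p ^ j) ∈ I)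
    {x : R} (hx : x ∈ Z) :
    ∏ z ∈ Z, (x ^ (p ^ i) - (s z) ^ (p ^ j)) ∈ I := by
  classical
  have : Fact p.Prime := ⟨hp⟩
  rcases subsingleton_or_nontrivial (R ⧸ I) with h3 | h3
  · rw [← Ideal.Quotient.eq_zero_iff_mem]
    exact Subsingleton.elim _ _
  have hchar := charP_quot I hp hpI
  set Q := R ⧸ I with hQ
  set mk := Ideal.Quotient.mk I with hmk
  set g : R[X] := ∏ z ∈ Z, (X - C z) with hg
  have h1 : (g.map mk).map (iterateFrobenius Q p i) = ∏ z ∈ Z, (X - C ((mk z) ^ (p ^ i))) := by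
    rw [hg, Polynomial.map_prod, Polynomial.map_prod]
    refine Finset.prod_congr rfl fun z _ => ?_
    simp [iterateFrobenius_def]
  have h2 : ((g.map s).map mk).map (iterateFrobenius Q p j) =
      ∏ z ∈ Z, (X - C ((mk (s z)) ^ (p ^ j))) := by
    rw [hg, Polynomial.map_prod, Polynomial.map_prod, Polynomial.map_prod]
    refine Finset.prod_congr rfl fun z _ => ?_
    simp [iterateFrobenius_def]
  have h4 : (g.map mk).map (iterateFrobenius Q p i) =
      ((g.map s).map mk).map (iterateFrobenius Q p j) := by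
    ext n
    rw [coeff_map, coeff_map, coeff_map, coeff_map, coeff_map, iterateFrobenius_def,
      iterateFrobenius_def, ← map_pow, ← map_pow, Ideal.Quotient.eq]
    exact hc n
  rw [h1, h2] at h4
  have h5 := congrArg (eval ((mk x) ^ (p ^ i))) h4
  rw [eval_prod, eval_prod] at h5
  simp only [eval_sub, eval_X, eval_C] at h5
  rw [← Ideal.Quotient.eq_zero_iff_mem, map_prod]
  have h6 : ∏ z ∈ Z, ((mk x) ^ (p ^ i) - (mk z) ^ (p ^ i)) = 0 :=
    Finset.prod_eq_zero hx (sub_self _)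
  rw [h6] at h5
  rw [h5]
  refine Finset.prod_congr rfl fun z _ => ?_
  rw [map_sub, map_pow, map_pow]

end Pool.Agent.K8h8.UB
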