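import Mathlib
import Pool.Agent.K9h75.BD.Tame

/-!
# The inertia group over an arbitrary base, when the exponent modulo the centre is finite
-/

set_option autoImplicit false

namespace Pool.Agent.K8h8.UB

open Pool.Agent.Q98.SG Pool.Agent.K9h75.BD

section

variable {S : Type*} [CommRing S] [IsDedekindDomain S] {G : Type*} [Group G]
  [MulSemiringAction G S] {P : Ideal S} [hPp : P.IsPrime]

/-- if all `d`-th powers are central, the prime number `p ∈ P` does not divide `d` and `φ` acts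
modulo `P` as `x ↦ x ^ q`, then the inertia group at `P` has a central `p`-subgroup of index at
most `d (q - 1)` -/
theorem inertia_wild_q [Finite G] [FaithfulSMul G S] (hP0 : P ≠ ⊥) [Finite (S ⧸ P)] {p q : ℕ}
    (hp : p.Prime) (hpP : (p : S) ∈ P) {d : ℕ} (hd : 0 < d) (hdp : ¬ p ∣ d) (hq : 2 ≤ q)
    (hcen : ∀ σ τ : G, σ ^ d * τ = τ * σ ^ d) (φ : G) (hφ : ∀ x : S, x ^ q - φ • x ∈ P) :
    ∃ W : Subgroup G, W ≤ Subgroup.center G ∧ IsPGroup p W ∧
      Nat.card (P.inertia G) ≤ d * (q - 1) * Nat.card W := by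
  classical
  obtain ⟨π, hπ, hπ2, hgen, θ, hθ⟩ := tame_char' (G := G) (P := P) hP0
  have hmax : P.IsMaximal := hPp.isMaximal hP0
  let _ : Field (S ⧸ P) := Ideal.Quotient.field P
  have hker0 : ∀ w : P.inertia G, θ w = 1 → (w : G) • π - π ∈ P ^ 2 := by
    intro w hw
    obtain ⟨a, e, he, h⟩ := hgen _ (smul_mem w.2 hπ)
    have h1 : (w : G) • π - π * a ∈ P ^ 2 := by
      rw [← h, add_sub_cancel_left]; exact he
    have h2 := hθ w a h1
    rw [hw, ← map_one (Ideal.Quotient.mk P), eq_comm, Ideal.Quotient.eq] at h2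
    have h3 : (w : G) • π - π = ((w : G) • π - π * a) + π * (a - 1) := by ring
    rw [h3]
    refine Ideal.add_mem _ h1 ?_
    rw [pow_two]
    exact Ideal.mul_mem_mul hπ h2
  -- kernel elements are central of `p`-power order
  have hker : ∀ w : P.inertia G, θ w = 1 → (w : G) ∈ Subgroup.center G ∧
      ∃ a : ℕ, (w : G) ^ (p ^ a) = 1 := by
    intro w hw
    have hw0 : 0 < orderOf (w : G) := orderOf_pos _
    obtain ⟨a, m, hm, hab⟩ := Nat.exists_eq_pow_mul_and_not_dvd hw0.ne' p hp.ne_one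
    have h1 : (w : G) ^ (p ^ a) = 1 := by
      have h3 : θ (w ^ (p ^ a)) = 1 := by rw [map_pow, hw, one_pow]
      have h4 := hker0 _ h3
      have h5 : (((w ^ (p ^ a) : P.inertia G) : G)) = (w : G) ^ (p ^ a) := by
        rw [Subgroup.coe_pow]
      rw [h5] at h4
      have h6 : (w : G) ^ (p ^ a) ∈ P.inertia G := Subgroup.pow_mem _ w.2 _
      refine tame_trivial h6 hπ hgen h4 (m := m) ?_ ?_
      · rw [← pow_mul, ← hab]
        exact pow_orderOf_eq_one _
      · intro h7
        have h8 : IsCoprime (p : ℤ) (m : ℤ) :=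
          Nat.isCoprime_iff_coprime.2 ((Nat.Prime.coprime_iff_not_dvd hp).2 hm)
        obtain ⟨x, y, hxy⟩ := h8
        apply hPp.ne_top
        rw [Ideal.eq_top_iff_one]
        have h9 : (1 : S) = (x : S) * (p : S) + (y : S) * (m : S) := by
          have := congrArg (Int.cast : ℤ → S) hxy
          push_cast at this
          exact this.symm
        rw [h9]
        exact P.add_mem (P.mul_mem_left _ hpP) (P.mul_mem_left _ h7)
    refine ⟨?_, a, h1⟩
    have h2 : (w : G) ^ d ∈ Subgroup.center G := by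
      rw [Subgroup.mem_center_iff]
      intro g
      exact (hcen _ g).symm
    have h3 : Nat.Coprime (p ^ a) d := by
      apply Nat.Coprime.pow_left
      exact (Nat.Prime.coprime_iff_not_dvd hp).2 hdp
    have h4 : IsCoprime ((p ^ a : ℕ) : ℤ) (d : ℤ) := Nat.isCoprime_iff_coprime.2 h3
    obtain ⟨x, y, hxy⟩ := h4
    have h5 : (w : G) = ((w : G) ^ (p ^ a)) ^ x * ((w : G) ^ d) ^ y := by
      rw [← zpow_natCast, ← zpow_natCast, ← zpow_mul, ← zpow_mul, ← zpow_add]
      have : ((p ^ a : ℕ) : ℤ) * x + (d : ℤ) * y = 1 := by rw [← hxy]; ring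
      rw [this, zpow_one]
    rw [h5, h1, one_zpow, one_mul]
    exact Subgroup.zpow_mem _ h2 _
  -- Frobenius preserves `P`
  have hφP : ∀ x ∈ P, φ • x ∈ P := by
    intro x hx
    have h1 := P.sub_mem (P.pow_mem_of_mem hx q (by omega)) (hφ x)
    rwa [sub_sub_cancel] at h1
  have hφπ : φ • π ∉ P ^ (1 + 1) := by
    intro h
    apply hπ2
    have h1 : ∀ n : ℕ, φ ^ n • (φ • π) ∈ P ^ (1 + 1) := by
      intro n
      induction n with
      | zero => simpa using h
      | succ n ih =>
        rw [pow_succ' φ n, mul_smul]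
        exact stab_pow hφP ih
    have h2 := h1 (orderOf φ - 1)
    rw [← mul_smul, ← pow_succ, Nat.sub_add_cancel (orderOf_pos φ), pow_orderOf_eq_one,
      one_smul] at h2
    exact h2
  -- the values of the tame character
  have hval : ∀ σ : P.inertia G, (θ σ) ^ (d * (q - 1)) = 1 := by
    intro σ
    set y : P.inertia G := σ ^ d with hy
    have hyG : (y : G) = (σ : G) ^ d := by rw [hy, Subgroup.coe_pow]
    obtain ⟨a, e, he, h⟩ := hgen _ (smul_mem y.2 hπ)
    have h1 : (y : G) • π - π * a ∈ P ^ 2 := by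
      rw [← h, add_sub_cancel_left]; exact he
    have h2 := hθ y a h1
    obtain ⟨c, e₁, he₁, hc⟩ := hgen _ (hφP π hπ)
    have h3 : (y : G) • (φ • π) - (φ • π) * a ∈ P ^ 2 := by
      have h30 : (y : G) • (φ • π) - (φ • π) * a =
          π * a * ((y : G) • c - c) + e * ((y : G) • c) + (y : G) • e₁ - e₁ * a := by
        rw [← hc, smul_add, smul_mul', ← h]
        ring
      rw [h30]
      refine Ideal.sub_mem _ (Ideal.add_mem _ (Ideal.add_mem _ ?_ (Ideal.mul_mem_right _ _ he))
        (smul_mem_pow y.2 he₁)) (Ideal.mul_mem_right _ _ he₁)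
      rw [pow_two]
      exact Ideal.mul_mem_mul (Ideal.mul_mem_right _ _ hπ) (inert_smul y.2 _)
    have h4 : φ • ((y : G) • π) - (φ • π) * a ^ q ∈ P ^ 2 := by
      have h40 : φ • ((y : G) • π) - (φ • π) * a ^ q =
          -((φ • π) * (a ^ q - φ • a)) + φ • e := by
        rw [← h, smul_add, smul_mul']
        ring
      rw [h40]
      refine Ideal.add_mem _ ((Ideal.neg_mem_iff _).2 ?_) (stab_pow hφP he)
      rw [pow_two]
      exact Ideal.mul_mem_mul (hφP π hπ) (hφ a)
    have h5 : φ • ((y : G) • π) = (y : G) • (φ • π) := by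
      rw [← mul_smul, ← mul_smul, hyG, hcen]
    have h6 : (φ • π) * (a ^ q - a) ∈ P ^ (1 + 1) := by
      have h60 : (φ • π) * (a ^ q - a) =
          ((y : G) • (φ • π) - (φ • π) * a) - (φ • ((y : G) • π) - (φ • π) * a ^ q) := by
        rw [h5]; ring
      rw [h60]
      exact Ideal.sub_mem _ h3 h4
    have h7 : a ^ q - a ∈ P := Ideal.mem_prime_of_mul_mem_pow hP0 hφπ h6
    have h8 : (Ideal.Quotient.mk P a) ^ q = Ideal.Quotient.mk P a := by
      rw [← map_pow, Ideal.Quotient.eq]
      exact h7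
    have h9 : (Ideal.Quotient.mk P a) ≠ 0 := by
      rw [← h2]
      intro h0
      have h90 : θ y * θ y⁻¹ = 1 := by rw [← map_mul, mul_inv_cancel, map_one]
      rw [h0, zero_mul] at h90
      exact zero_ne_one h90
    have h10 : (Ideal.Quotient.mk P a) ^ (q - 1) = 1 := by
      have h100 : (Ideal.Quotient.mk P a) ^ (q - 1) * (Ideal.Quotient.mk P a) =
          1 * (Ideal.Quotient.mk P a) := by
        rw [← pow_succ, Nat.sub_add_cancel (by omega), h8, one_mul]
      exact mul_right_cancel₀ h9 h100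
    rw [pow_mul, ← map_pow, ← hy, h2, h10]
  let θ' : P.inertia G →* (S ⧸ P)ˣ := θ.toHomUnits
  have hθ' : ∀ σ, ((θ' σ : (S ⧸ P)ˣ) : S ⧸ P) = θ σ := fun σ => rfl
  have hn0 : d * (q - 1) ≠ 0 := Nat.mul_ne_zero hd.ne' (by omega)
  have : NeZero (d * (q - 1)) := ⟨hn0⟩
  have hrange : Nat.card θ'.range ≤ d * (q - 1) := by
    have h1 : θ'.range ≤ rootsOfUnity (d * (q - 1)) (S ⧸ P) := by
      rintro _ ⟨σ, rfl⟩
      rw [mem_rootsOfUnity]
      apply Units.ext
      push_cast
      exact hval σ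
    have h2 : Nat.card (rootsOfUnity (d * (q - 1)) (S ⧸ P)) ≤ d * (q - 1) :=
      card_rootsOfUnity _ _
    exact (Subgroup.card_le_of_le h1).trans h2
  refine ⟨θ'.ker.map (P.inertia G).subtype, ?_, ?_, ?_⟩
  · rintro _ ⟨w, hw, rfl⟩
    have h1 : θ w = 1 := by
      rw [← hθ', (MonoidHom.mem_ker.1 hw)]
      rfl
    exact (hker w h1).1
  · rintro ⟨_, w, hw, rfl⟩
    have h1 : θ w = 1 := by
      rw [← hθ', (MonoidHom.mem_ker.1 hw)]
      rfl
    obtain ⟨a, ha⟩ := (hker w h1).2
    refine ⟨a, Subtype.ext ?_⟩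
    rw [Subgroup.coe_pow]
    exact ha
  · have h1 : Nat.card (θ'.ker.map (P.inertia G).subtype) = Nat.card θ'.ker :=
      Subgroup.card_map_of_injective (Subgroup.subtype_injective _)
    rw [h1, ← Subgroup.card_mul_index θ'.ker, Subgroup.index_ker, mul_comm]
    exact Nat.mul_le_mul_right _ hrange

end

end Pool.Agent.K8h8.UB
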