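import Mathlib
import Pool.Agent.K8h8.UB.Tame
import Pool.Agent.K8h8.UB.Congr

/-!
# Galois extensions of number fields of finite exponent modulo the centre: Frobenius, ramification
-/

set_option autoImplicit false

open NumberField
open scoped Pointwise

namespace Pool.Agent.K8h8.UB

section

variable {F L : Type} [Field F] [NumberField F] [Field L] [NumberField L] [Algebra F L]

/-- the ideal of `𝓞 L` generated by `𝔭` -/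
noncomputable abbrev up (L : Type) [Field L] [NumberField L] [Algebra F L] (𝔭 : Ideal (𝓞 F)) :
    Ideal (𝓞 L) :=
  𝔭.map (algebraMap (𝓞 F) (𝓞 L))

lemma liesOver {𝔭 : Ideal (𝓞 F)} (h𝔭 : 𝔭.IsMaximal) (P : Ideal (𝓞 L)) (hP : P.IsPrime)
    (h : up L 𝔭 ≤ P) : P.LiesOver 𝔭 := by
  refine ⟨h𝔭.eq_of_le (Ideal.IsPrime.under (𝓞 F) P).ne_top ?_⟩
  exact Ideal.map_le_iff_le_comap.1 h

lemma up_ne_bot {𝔭 : Ideal (𝓞 F)} (h0 : 𝔭 ≠ ⊥) : up L 𝔭 ≠ ⊥ := by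
  intro h
  exact h0 ((Ideal.map_eq_bot_iff_of_injective
    (FaithfulSMul.algebraMap_injective (𝓞 F) (𝓞 L))).1 h)

lemma up_le {𝔭 : Ideal (𝓞 F)} (P : Ideal (𝓞 L)) [P.LiesOver 𝔭] : up L 𝔭 ≤ P := by
  rw [Ideal.map_le_iff_le_comap]
  exact (P.over_def 𝔭).le

open UniqueFactorizationMonoid in
/-- `rad(𝔭)^m ⊆ 𝔭` if the ramification indices are at most `m` -/
lemma ramLe_up {𝔭 : Ideal (𝓞 F)} (h𝔭 : 𝔭.IsMaximal) (h0 : 𝔭 ≠ ⊥) {m : ℕ}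
    (h : ∀ P : Ideal (𝓞 L), P.IsPrime → P.LiesOver 𝔭 → P.ramificationIdx (𝓞 F) ≤ m) :
    (up L 𝔭).radical ^ m ≤ up L 𝔭 := by
  classical
  have hI0 : up L 𝔭 ≠ ⊥ := up_ne_bot h0
  have hR0 : (up L 𝔭).radical ≠ ⊥ := by
    intro h0
    exact hI0 (le_bot_iff.1 (h0 ▸ Ideal.le_radical))
  rw [← Ideal.dvd_iff_le, dvd_iff_normalizedFactors_le_normalizedFactors hI0 (pow_ne_zero _ hR0),
    normalizedFactors_pow, Multiset.le_iff_count]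
  intro P
  rw [Multiset.count_nsmul]
  by_cases hP : P ∈ normalizedFactors (up L 𝔭)
  · have hprime := Ideal.isPrime_of_prime (prime_of_normalized_factor P hP)
    have hle : up L 𝔭 ≤ P := Ideal.dvd_iff_le.1 (dvd_of_mem_normalizedFactors hP)
    have hlo := liesOver h𝔭 P hprime hle
    have h1 := h P hprime hlo
    rw [Ideal.IsDedekindDomain.ramificationIdx_eq_normalizedFactors_count 𝔭 P hI0] at h1
    have h2 : (up L 𝔭).radical ≤ P := hprime.radical_le_iff.2 hle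
    have h3 : 1 ≤ Multiset.count P (normalizedFactors (up L 𝔭).radical) := by
      rw [Multiset.one_le_count_iff_mem]
      rw [Ideal.mem_normalizedFactors_iff hR0]
      exact ⟨hprime, h2⟩
    nlinarith
  · rw [Multiset.count_eq_zero_of_notMem hP]
    exact Nat.zero_le _

variable [IsGalois F L]

/-- all ramification indices are equal to the order of the inertia group -/
lemma ram_eq_up {𝔭 : Ideal (𝓞 F)} (h𝔭 : 𝔭.IsMaximal) (P Q : Ideal (𝓞 L)) (hP : P.IsPrime)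
    (hlP : P.LiesOver 𝔭) (hQ : Q.IsPrime) (hlQ : Q.LiesOver 𝔭) :
    Q.ramificationIdx (𝓞 F) = Nat.card (P.inertia (L ≃ₐ[F] L)) := by
  rw [Ideal.card_inertia_eq_ramificationIdxIn (G := L ≃ₐ[F] L) 𝔭 P,
    Ideal.ramificationIdxIn_eq_ramificationIdx 𝔭 Q (L ≃ₐ[F] L)]

/-- Frobenius elements at all primes above `𝔭` -/
lemma frob_all_up {𝔭 : Ideal (𝓞 F)} (h𝔭 : 𝔭.IsMaximal) (h0 : 𝔭 ≠ ⊥) :
    ∃ s₀ : L ≃ₐ[F] L, ∀ Q : Ideal (𝓞 L), Q.IsPrime → Q.LiesOver 𝔭 →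
      ∃ s : L ≃ₐ[F] L, IsConj s s₀ ∧ ∀ x : 𝓞 L, x ^ (Nat.card (𝓞 F ⧸ 𝔭)) - s • x ∈ Q := by
  classical
  have hpr : 𝔭.IsPrime := h𝔭.isPrime
  obtain ⟨Q₀⟩ : Nonempty (Ideal.primesOver 𝔭 (𝓞 L)) := inferInstance
  have hfin : ∀ Q : Ideal.primesOver 𝔭 (𝓞 L), Finite (𝓞 L ⧸ Q.1) := by
    intro Q
    apply Ideal.finiteQuotientOfFreeOfNeBot
    intro h4
    have h2 := Q.2.2.over
    apply h0
    rw [h2, h4]
    exact Ideal.comap_bot_of_injective _ (FaithfulSMul.algebraMap_injective (𝓞 F) (𝓞 L))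
  obtain ⟨s, hs1, hs2⟩ := IsArithFrobAt.exists_primesOver_isConj (R := 𝓞 F) (𝓞 L) (L ≃ₐ[F] L)
    𝔭 ⟨Q₀, hfin Q₀⟩
  refine ⟨s Q₀, fun J hJ2 hlJ => ?_⟩
  refine ⟨s ⟨J, hJ2, hlJ⟩, hs2 _ _, fun x => ?_⟩
  have h1 := hs1 ⟨J, hJ2, hlJ⟩ x
  have h3 : s ⟨J, hJ2, hlJ⟩ • x - x ^ (Nat.card (𝓞 F ⧸ 𝔭)) ∈ J := by
    have h5 : Nat.card (𝓞 F ⧸ J.under (𝓞 F)) = Nat.card (𝓞 F ⧸ 𝔭) := by rw [← hlJ.over]
    rw [← h5]; exact h1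
  rw [← neg_sub]
  exact J.neg_mem h3

/-- the central power of Frobenius -/
theorem frob_central_up {𝔭 : Ideal (𝓞 F)} (h𝔭 : 𝔭.IsMaximal) (h0 : 𝔭 ≠ ⊥) {d : ℕ}
    (hcen : ∀ σ τ : L ≃ₐ[F] L, σ ^ d * τ = τ * σ ^ d) :
    ∃ σ : L ≃ₐ[F] L, ∀ T : 𝓞 L, T ^ ((Nat.card (𝓞 F ⧸ 𝔭)) ^ d) - σ • T ∈ (up L 𝔭).radical := by
  classical
  set q := Nat.card (𝓞 F ⧸ 𝔭) with hq
  obtain ⟨s₀, hs₀⟩ := frob_all_up (L := L) h𝔭 h0
  refine ⟨s₀ ^ d, fun T => ?_⟩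
  rw [Ideal.radical_eq_sInf, Ideal.mem_sInf]
  rintro J ⟨hJ1, hJ2⟩
  obtain ⟨s, hs, hx⟩ := hs₀ J hJ2 (liesOver h𝔭 J hJ2 hJ1)
  have hpow : s ^ d = s₀ ^ d := by
    obtain ⟨g, hg⟩ := isConj_iff.1 hs
    rw [← hg, conj_pow, ← hcen, mul_assoc, mul_inv_cancel, mul_one]
  rw [← hpow]
  have key : ∀ k : ℕ, T ^ (q ^ k) - s ^ k • T ∈ J := by
    intro k
    induction k with
    | zero => simp
    | succ k ih =>
      have h1 := hx (s ^ k • T)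
      have h2 : (T ^ (q ^ k)) ^ q - (s ^ k • T) ^ q ∈ J := by
        obtain ⟨w, hw⟩ := sub_dvd_pow_sub_pow (T ^ (q ^ k)) (s ^ k • T) q
        rw [hw]
        exact J.mul_mem_right _ ih
      have h3 : T ^ (q ^ (k + 1)) - s ^ (k + 1) • T =
          ((T ^ (q ^ k)) ^ q - (s ^ k • T) ^ q) + ((s ^ k • T) ^ q - s • s ^ k • T) := by
        rw [← pow_mul, ← pow_succ, pow_succ' s, mul_smul]
        ring
      rw [h3]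
      exact J.add_mem h2 h1
  exact key d

/-- the ramification index is at most `d (q - 1)` times the order of a central `p`-subgroup -/
theorem ram_bound_up {𝔭 : Ideal (𝓞 F)} (h𝔭 : 𝔭.IsMaximal) (h0 : 𝔭 ≠ ⊥) {p d : ℕ} (hp : p.Prime)
    (hp𝔭 : (p : 𝓞 F) ∈ 𝔭) (hd : 0 < d) (hdp : ¬ p ∣ d)
    (hcen : ∀ σ τ : L ≃ₐ[F] L, σ ^ d * τ = τ * σ ^ d) :
    ∃ W : Subgroup (L ≃ₐ[F] L), W ≤ Subgroup.center (L ≃ₐ[F] L) ∧ IsPGroup p W ∧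
      ∀ m : ℕ, d * (Nat.card (𝓞 F ⧸ 𝔭) - 1) * Nat.card W ≤ m →
        (up L 𝔭).radical ^ m ≤ up L 𝔭 := by
  classical
  have hpr : 𝔭.IsPrime := h𝔭.isPrime
  obtain ⟨Q₀⟩ : Nonempty (Ideal.primesOver 𝔭 (𝓞 L)) := inferInstance
  obtain ⟨P, hP, hlP⟩ := Q₀
  have hP0 : P ≠ ⊥ := by
    rintro rfl
    have h2 := hlP.over
    apply h0
    rw [h2]
    exact Ideal.comap_bot_of_injective _ (FaithfulSMul.algebraMap_injective (𝓞 F) (𝓞 L))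
  have hfin : Finite (𝓞 L ⧸ P) := Ideal.finiteQuotientOfFreeOfNeBot P hP0
  have hfin0 : Finite (𝓞 F ⧸ 𝔭) := Ideal.finiteQuotientOfFreeOfNeBot 𝔭 h0
  have hpP : (p : 𝓞 L) ∈ P := by
    have h2 : algebraMap (𝓞 F) (𝓞 L) (p : 𝓞 F) ∈ P :=
      up_le (L := L) (𝔭 := 𝔭) P (Ideal.mem_map_of_mem _ hp𝔭)
    rwa [map_natCast] at h2
  obtain ⟨s₀, hs₀⟩ := frob_all_up (L := L) h𝔭 h0
  obtain ⟨s, -, hs⟩ := hs₀ P hP hlP
  have hq : 2 ≤ Nat.card (𝓞 F ⧸ 𝔭) := by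
    have : Nontrivial (𝓞 F ⧸ 𝔭) := Ideal.Quotient.nontrivial_iff.2 hpr.ne_top
    exact Finite.one_lt_card
  have : FaithfulSMul (L ≃ₐ[F] L) (𝓞 L) :=
    (inferInstance : IsGaloisGroup (L ≃ₐ[F] L) (𝓞 F) (𝓞 L)).faithful
  obtain ⟨W, hW1, hW2, hW3⟩ := inertia_wild_q (G := L ≃ₐ[F] L) hP0 hp hpP hd hdp hq hcen s hs
  refine ⟨W, hW1, hW2, fun m hm => ?_⟩
  exact ramLe_up h𝔭 h0 (m := m) (fun Q hQ hlQ => by
    rw [ram_eq_up h𝔭 P Q hP hlP hQ hlQ]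
    exact hW3.trans hm)

/-- the cardinality of the residue field -/
lemma card_resid {𝔭 : Ideal (𝓞 F)} (h𝔭 : 𝔭.IsMaximal) (h0 : 𝔭 ≠ ⊥) {p : ℕ} (hp : p.Prime)
    (hp𝔭 : (p : 𝓞 F) ∈ 𝔭) : ∃ f : ℕ, 0 < f ∧ f ≤ Module.finrank ℚ F ∧
      Nat.card (𝓞 F ⧸ 𝔭) = p ^ f ∧ Ideal.absNorm 𝔭 = p ^ f := by
  have : Fact p.Prime := ⟨hp⟩
  have hfin : Finite (𝓞 F ⧸ 𝔭) := Ideal.finiteQuotientOfFreeOfNeBot 𝔭 h0
  let _ := Ideal.Quotient.field 𝔭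
  let _ := Fintype.ofFinite (𝓞 F ⧸ 𝔭)
  have := charP_quot 𝔭 hp hp𝔭
  obtain ⟨n, -, hn⟩ := FiniteField.card (𝓞 F ⧸ 𝔭) p
  have h1 : Nat.card (𝓞 F ⧸ 𝔭) = p ^ (n : ℕ) := by rw [Nat.card_eq_fintype_card, hn]
  have h2 : Ideal.absNorm 𝔭 = p ^ (n : ℕ) := by
    rw [← h1, Ideal.absNorm_apply, Submodule.cardQuot_apply]
  have h3 : Ideal.absNorm 𝔭 ∣ Ideal.absNorm (Ideal.span {(p : 𝓞 F)}) := by
    apply Ideal.absNorm_dvd_absNorm_of_le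
    rw [Ideal.span_singleton_le_iff_mem]
    exact hp𝔭
  rw [h2, Ideal.absNorm_span_natCast, RingOfIntegers.rank] at h3
  refine ⟨n, n.pos, ?_, h1, h2⟩
  exact (Nat.pow_dvd_pow_iff_le_right hp.one_lt).1 h3

end

end Pool.Agent.K8h8.UB
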