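import Mathlib
import Pool.Agent.K9h75.BD.Norm
import Pool.Agent.K8h8.UB.NF

/-!
# The norm inequality over a base field
-/

set_option autoImplicit false

open NumberField

namespace Pool.Agent.K8h8.UB

open Pool.Agent.K9h75.BD

/-- the orbit of `x` under `H`, and the orders of the stabilizer and of `H` -/
lemma orbit_card_gen {G X : Type*} [Group G] [MulAction G X] {x : X} {H : Subgroup G}
    (hH : MulAction.stabilizer G x ≤ H) {Z : Finset X} (hZ : ∀ z, z ∈ Z ↔ ∃ h ∈ H, h • x = z) :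
    Z.card * Nat.card (MulAction.stabilizer G x) = Nat.card H := by
  classical
  have h1 := Nat.card_congr (MulAction.orbitProdStabilizerEquivGroup H x)
  rw [Nat.card_prod] at h1
  have h2 : Nat.card (MulAction.orbit H x) = Z.card := by
    have h3 : MulAction.orbit H x = (Z : Set X) := by
      ext z
      rw [MulAction.mem_orbit_iff, Finset.mem_coe, hZ]
      constructor
      · rintro ⟨⟨h, hh⟩, rfl⟩
        exact ⟨h, hh, rfl⟩
      · rintro ⟨h, hh, rfl⟩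
        exact ⟨⟨h, hh⟩, rfl⟩
    rw [h3, Nat.card_coe_set_eq, Set.ncard_coe_finset]
  have h4 : Nat.card (MulAction.stabilizer H x) = Nat.card (MulAction.stabilizer G x) := by
    have h5 : MulAction.stabilizer H x = (MulAction.stabilizer G x).subgroupOf H := by
      ext h
      rw [MulAction.mem_stabilizer_iff, Subgroup.mem_subgroupOf, MulAction.mem_stabilizer_iff]
      rfl
    rw [h5]
    exact Nat.card_congr (Subgroup.subgroupOfEquivOfLe hH).toEquiv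
  rw [h2, h4] at h1
  exact h1

section

variable {F M : Type} [Field F] [NumberField F] [Field M] [NumberField M] [Algebra F M]

/-- the automorphisms over `F` as automorphisms over `ℚ` -/
noncomputable abbrev res : (M ≃ₐ[F] M) →* (M ≃ₐ[ℚ] M) := AlgEquiv.restrictScalarsHom ℚ

lemma res_smul (σ : M ≃ₐ[F] M) (z : 𝓞 M) : (res σ : M ≃ₐ[ℚ] M) • z = σ • z := rfl

variable [IsGalois ℚ M]

lemma card_rel : Nat.card (M ≃ₐ[ℚ] M) = Module.finrank ℚ F * Nat.card (M ≃ₐ[F] M) := by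
  have hg : IsGalois F M := IsGalois.tower_top_of_isGalois ℚ F M
  rw [IsGalois.card_aut_eq_finrank, IsGalois.card_aut_eq_finrank,
    Module.finrank_mul_finrank ℚ F M]

lemma card_stab_le (x : 𝓞 M) : Nat.card (MulAction.stabilizer (M ≃ₐ[F] M) x) ≤
    Nat.card (MulAction.stabilizer (M ≃ₐ[ℚ] M) x) := by
  refine Nat.card_le_card_of_injective
    (fun g : MulAction.stabilizer (M ≃ₐ[F] M) x =>
      (⟨res g.1, g.2⟩ : MulAction.stabilizer (M ≃ₐ[ℚ] M) x)) ?_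
  intro a b h
  apply Subtype.ext
  exact AlgEquiv.restrictScalarsHom_injective ℚ (congrArg Subtype.val h)

lemma card_stab_ge (x : 𝓞 M) : Nat.card (MulAction.stabilizer (M ≃ₐ[ℚ] M) x) ≤
    Module.finrank ℚ F * Nat.card (MulAction.stabilizer (M ≃ₐ[F] M) x) := by
  classical
  set j : (M ≃ₐ[F] M) →* (M ≃ₐ[ℚ] M) := res with hj
  have hinj : Function.Injective j := AlgEquiv.restrictScalarsHom_injective ℚ
  set S := MulAction.stabilizer (M ≃ₐ[ℚ] M) x with hS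
  have h1 : Nat.card j.range = Nat.card (M ≃ₐ[F] M) :=
    (Nat.card_congr (MonoidHom.ofInjective hinj).toEquiv).symm
  have h2 : Nat.card j.range * j.range.index = Nat.card (M ≃ₐ[ℚ] M) := Subgroup.card_mul_index _
  rw [card_rel (F := F), h1, mul_comm] at h2
  have h3 : j.range.index = Module.finrank ℚ F :=
    Nat.eq_of_mul_eq_mul_right Nat.card_pos h2
  have h4 : j.range.relIndex S ≤ j.range.index := by
    rw [← Subgroup.relIndex_top_right]
    apply Subgroup.relIndex_le_of_le_right le_top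
    rw [Subgroup.relIndex_top_right]
    exact Subgroup.index_ne_zero_of_finite
  have h5 : Nat.card (j.range.subgroupOf S) * (j.range.subgroupOf S).index = Nat.card S :=
    Subgroup.card_mul_index _
  have h6 : Nat.card (j.range.subgroupOf S) ≤ Nat.card (MulAction.stabilizer (M ≃ₐ[F] M) x) := by
    have h7 : ∀ g : j.range.subgroupOf S, ∃ τ : M ≃ₐ[F] M, j τ = (g.1 : M ≃ₐ[ℚ] M) := fun g => g.2
    choose τ hτ using h7
    refine Nat.card_le_card_of_injective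
      (fun g : j.range.subgroupOf S => (⟨τ g, ?_⟩ : MulAction.stabilizer (M ≃ₐ[F] M) x)) ?_
    · rw [MulAction.mem_stabilizer_iff, ← res_smul]
      have h8 : (g.1 : M ≃ₐ[ℚ] M) • x = x := g.1.2
      rw [← hτ g] at h8
      exact h8
    · intro a b h
      have h8 : τ a = τ b := congrArg Subtype.val h
      apply Subtype.ext
      apply Subtype.ext
      rw [← hτ a, ← hτ b, h8]
  calc Nat.card S = Nat.card (j.range.subgroupOf S) * (j.range.subgroupOf S).index := h5.symm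
    _ ≤ Nat.card (MulAction.stabilizer (M ≃ₐ[F] M) x) * Module.finrank ℚ F :=
        Nat.mul_le_mul h6 (h4.trans h3.le)
    _ = _ := mul_comm _ _

/-- the lower bound for the product over the embeddings of an element of the ideal generated
by `𝔭` -/
lemma absNorm_pow_le (ι : M →ₐ[ℚ] ℂ) {𝔭 : Ideal (𝓞 F)} {y : 𝓞 M} (hy : y ∈ up M 𝔭)
    (hy0 : y ≠ 0) :
    (Ideal.absNorm 𝔭 : ℝ) ^ (Nat.card (M ≃ₐ[F] M)) ≤ ∏ γ : M ≃ₐ[ℚ] M, ‖ι (γ (y : M))‖ := by
  have hg : IsGalois F M := IsGalois.tower_top_of_isGalois ℚ F M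
  have h1 : Ideal.absNorm (up M 𝔭) = Ideal.absNorm 𝔭 ^ (Nat.card (M ≃ₐ[F] M)) := by
    rw [up, Ideal.absNorm_algebraMap, IsGalois.card_aut_eq_finrank]
    congr 1
    exact (Algebra.IsAlgebraic.finrank_of_isFractionRing (𝓞 F) F (𝓞 M) M).symm
  have h2 : Ideal.absNorm (up M 𝔭) ∣ Ideal.absNorm (Ideal.span {y}) := by
    apply Ideal.absNorm_dvd_absNorm_of_le
    rw [Ideal.span_singleton_le_iff_mem]
    exact hy
  rw [Ideal.absNorm_span_singleton] at h2
  have hn0 : Algebra.norm ℤ y ≠ 0 := Algebra.norm_ne_zero_iff.2 hy0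
  have h3 := Nat.le_of_dvd (Int.natAbs_pos.2 hn0) h2
  rw [h1] at h3
  have h4 : ∏ γ : M ≃ₐ[ℚ] M, ‖ι (γ (y : M))‖ = ((Algebra.norm ℤ y).natAbs : ℝ) := by
    rw [← prod_embeddings ι (fun w => ‖w‖) (y : M), ← norm_prod,
      ← Algebra.norm_eq_prod_embeddings ℚ ℂ (y : M), Nat.cast_natAbs]
    have h5 : Algebra.norm ℚ (y : M) = ((Algebra.norm ℤ y : ℤ) : ℚ) :=
      (Algebra.coe_norm_int y).symm
    rw [h5]
    simp
  rw [h4]
  exact_mod_cast h3

/-- the norm inequality -/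
theorem norm_ineq_up (ι : M →ₐ[ℚ] ℂ) {β : ℝ} (hβ : 1 < β) (x : 𝓞 M)
    (hx : ι (x : M) = (β : ℂ))
    (hone : ∀ γ : M ≃ₐ[ℚ] M, γ • x ≠ x → ‖ι ((γ • x : 𝓞 M) : M)‖ ≤ 1)
    (H : Subgroup (M ≃ₐ[F] M)) (hH : MulAction.stabilizer (M ≃ₐ[F] M) x ≤ H)
    (Z : Finset (𝓞 M)) (hZ : ∀ z, z ∈ Z ↔ ∃ h ∈ H, h • x = z) (σ : M ≃ₐ[F] M) {a b : ℕ}
    (hab : b < a) {𝔭 : Ideal (𝓞 F)}
    (hdiv : ∏ z ∈ Z, (x ^ a - (σ • z) ^ b) ∈ up M 𝔭) :
    (Ideal.absNorm 𝔭 : ℝ) ^ H.index ≤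
      2 ^ (Z.card * H.index * Module.finrank ℚ F) * β ^ ((a + b) * Module.finrank ℚ F) := by
  classical
  set k := Module.finrank ℚ F with hk
  set μ : 𝓞 M → ℝ := fun w => max 1 ‖ι (w : M)‖ with hμ
  have hμ1 : ∀ w : 𝓞 M, 1 ≤ μ w := fun w => le_max_left _ _
  have hμ2 : ∀ w : 𝓞 M, ‖ι (w : M)‖ ≤ μ w := fun w => le_max_right _ _
  have hnx : ‖ι (x : M)‖ = β := by
    rw [hx, Complex.norm_real, Real.norm_eq_abs, abs_of_pos (by linarith)]
  have hβall : ∀ γ : M ≃ₐ[ℚ] M, ‖ι ((γ • x : 𝓞 M) : M)‖ ≤ β := by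
    intro γ
    by_cases h : γ • x = x
    · rw [h, hnx]
    · exact (hone γ h).trans hβ.le
  -- the product is not zero
  have hne : ∏ z ∈ Z, (x ^ a - (σ • z) ^ b) ≠ 0 := by
    rw [Finset.prod_ne_zero_iff]
    intro z hz h0
    obtain ⟨h, hh, rfl⟩ := (hZ z).1 hz
    have h1 := congrArg (fun w : 𝓞 M => ι (w : M)) (sub_eq_zero.1 h0)
    simp only [map_pow, RingOfIntegers.coe_eq_algebraMap] at h1
    have h2 := congrArg norm h1
    rw [norm_pow, norm_pow] at h2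
    have h3 : ‖ι (algebraMap (𝓞 M) M x)‖ = β := hnx
    have h4 : ‖ι (algebraMap (𝓞 M) M (σ • h • x))‖ ≤ β := by
      have := hβall (res (σ * h))
      rw [res_smul, mul_smul] at this
      exact this
    rw [h3] at h2
    have h5 : β ^ b < β ^ a := pow_lt_pow_right₀ hβ hab
    have h6 := pow_le_pow_left₀ (norm_nonneg (ι (algebraMap (𝓞 M) M (σ • h • x)))) h4 b
    linarith
  have hlow := absNorm_pow_le ι hdiv hne
  -- the upper bound
  have hfac : ∀ γ : M ≃ₐ[ℚ] M,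
      ‖ι (γ ((∏ z ∈ Z, (x ^ a - (σ • z) ^ b) : 𝓞 M) : M))‖ ≤
        ∏ z ∈ Z, (2 * (μ (γ • x) ^ a * μ (γ • σ • z) ^ b)) := by
    intro γ
    have h1 : ι (γ ((∏ z ∈ Z, (x ^ a - (σ • z) ^ b) : 𝓞 M) : M)) =
        ∏ z ∈ Z, (ι ((γ • x : 𝓞 M) : M) ^ a - ι ((γ • σ • z : 𝓞 M) : M) ^ b) := by
      simp only [RingOfIntegers.coe_eq_algebraMap, map_prod, map_sub, map_pow]
      rfl
    rw [h1, norm_prod]
    refine Finset.prod_le_prod (fun z _ => norm_nonneg _) fun z _ => ?_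
    refine (norm_sub_le _ _).trans ?_
    rw [norm_pow, norm_pow]
    have h2 : ‖ι ((γ • x : 𝓞 M) : M)‖ ^ a ≤ μ (γ • x) ^ a :=
      pow_le_pow_left₀ (norm_nonneg _) (hμ2 _) _
    have h3 : ‖ι ((γ • σ • z : 𝓞 M) : M)‖ ^ b ≤ μ (γ • σ • z) ^ b :=
      pow_le_pow_left₀ (norm_nonneg _) (hμ2 _) _
    have h4 : 1 ≤ μ (γ • x) ^ a := one_le_pow₀ (hμ1 _)
    have h5 : 1 ≤ μ (γ • σ • z) ^ b := one_le_pow₀ (hμ1 _)
    nlinarith
  have hup : ∏ γ : M ≃ₐ[ℚ] M, ‖ι (γ ((∏ z ∈ Z, (x ^ a - (σ • z) ^ b) : 𝓞 M) : M))‖ ≤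
      ∏ γ : M ≃ₐ[ℚ] M, ∏ z ∈ Z, (2 * (μ (γ • x) ^ a * μ (γ • σ • z) ^ b)) :=
    Finset.prod_le_prod (fun γ _ => norm_nonneg _) fun γ _ => hfac γ
  set PP : ℝ := ∏ γ : M ≃ₐ[ℚ] M, μ (γ • x) with hPP
  have hre : ∀ δ : M ≃ₐ[ℚ] M, ∏ γ : M ≃ₐ[ℚ] M, μ (γ • δ • x) = PP := by
    intro δ
    rw [hPP]
    refine Fintype.prod_equiv (Equiv.mulRight δ) _ _ fun γ => ?_
    simp [mul_smul]
  have hprod : ∏ γ : M ≃ₐ[ℚ] M, ∏ z ∈ Z, (2 * (μ (γ • x) ^ a * μ (γ • σ • z) ^ b)) =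
      2 ^ (Z.card * Nat.card (M ≃ₐ[ℚ] M)) * PP ^ ((a + b) * Z.card) := by
    rw [Finset.prod_comm]
    have h1 : ∀ z ∈ Z, ∏ γ : M ≃ₐ[ℚ] M, (2 * (μ (γ • x) ^ a * μ (γ • σ • z) ^ b)) =
        2 ^ (Nat.card (M ≃ₐ[ℚ] M)) * PP ^ (a + b) := by
      intro z hz
      obtain ⟨h, hh, rfl⟩ := (hZ z).1 hz
      rw [Finset.prod_mul_distrib, Finset.prod_mul_distrib, Finset.prod_const,
        Finset.prod_pow, Finset.prod_pow, Finset.card_univ, Nat.card_eq_fintype_card]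
      have h2 : ∏ γ : M ≃ₐ[ℚ] M, μ (γ • σ • h • x) = PP := by
        rw [← hre (res (σ * h))]
        refine Finset.prod_congr rfl fun γ _ => ?_
        rw [res_smul, mul_smul]
      rw [h2, ← hPP, pow_add]
    rw [Finset.prod_congr rfl h1, Finset.prod_const, mul_pow, ← pow_mul, ← pow_mul,
      mul_comm Z.card]
  have hPPv : PP = β ^ Nat.card (MulAction.stabilizer (M ≃ₐ[ℚ] M) x) := by
    rw [hPP]
    have h1 : ∀ γ : M ≃ₐ[ℚ] M, μ (γ • x) =
        if γ ∈ MulAction.stabilizer (M ≃ₐ[ℚ] M) x then β else 1 := by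
      intro γ
      split_ifs with h
      · rw [MulAction.mem_stabilizer_iff] at h
        rw [h]
        show max 1 ‖ι (x : M)‖ = β
        rw [hnx]
        exact max_eq_right hβ.le
      · rw [MulAction.mem_stabilizer_iff] at h
        exact max_eq_left (hone γ h)
    rw [Finset.prod_congr rfl fun γ _ => h1 γ, Finset.prod_ite, Finset.prod_const,
      Finset.prod_const_one, mul_one]
    congr 1
    rw [Nat.card_eq_fintype_card, Fintype.card_subtype]
  have horb := orbit_card_gen hH hZ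
  have hidx : Nat.card H * H.index = Nat.card (M ≃ₐ[F] M) := Subgroup.card_mul_index H
  have hH0 : Nat.card H ≠ 0 := Nat.card_pos.ne'
  have hst := card_stab_ge (F := F) x
  have hfin : ((Ideal.absNorm 𝔭 : ℝ) ^ H.index) ^ Nat.card H ≤
      (2 ^ (Z.card * H.index * k) * β ^ ((a + b) * k)) ^ Nat.card H := by
    have h1 : ((Ideal.absNorm 𝔭 : ℝ) ^ H.index) ^ Nat.card H =
        (Ideal.absNorm 𝔭 : ℝ) ^ (Nat.card (M ≃ₐ[F] M)) := by
      rw [← pow_mul, mul_comm, hidx]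
    rw [h1]
    refine (hlow.trans (hup.trans_eq hprod)).trans ?_
    rw [hPPv, mul_pow, ← pow_mul, ← pow_mul, ← pow_mul, card_rel (F := F), ← hidx]
    have e1 : Z.card * (Module.finrank ℚ F * (Nat.card H * H.index)) =
        Z.card * H.index * k * Nat.card H := by rw [hk]; ring
    have e2 : Nat.card (MulAction.stabilizer (M ≃ₐ[ℚ] M) x) * ((a + b) * Z.card) ≤
        (a + b) * k * Nat.card H := by
      calc Nat.card (MulAction.stabilizer (M ≃ₐ[ℚ] M) x) * ((a + b) * Z.card)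
          ≤ (k * Nat.card (MulAction.stabilizer (M ≃ₐ[F] M) x)) * ((a + b) * Z.card) :=
            Nat.mul_le_mul_right _ hst
        _ = (a + b) * k * (Z.card * Nat.card (MulAction.stabilizer (M ≃ₐ[F] M) x)) := by ring
        _ = (a + b) * k * Nat.card H := by rw [horb]
    rw [e1]
    exact mul_le_mul_of_nonneg_left (pow_le_pow_right₀ hβ.le e2) (by positivity)
  exact (pow_le_pow_iff_left₀ (by positivity) (by positivity) hH0).1 hfin

end

end Pool.Agent.K8h8.UB
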