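import Mathlib
import Pool.Agent.K9h75.BD.Core
import Pool.Agent.K8h8.UB.Norm

/-!
# The main inequality inside a Galois number field, over a base field
-/

set_option autoImplicit false

open NumberField IntermediateField

namespace Pool.Agent.K8h8.UB

open Pool.Agent.K9h75.BD

section

variable {F M : Type} [Field F] [NumberField F] [Field M] [NumberField M] [Algebra F M]

/-- an integer fixed by the group of a subfield comes from the ring of integers of the subfield -/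
lemma descend_up [IsGalois F M] (L : IntermediateField F M) (c : 𝓞 M)
    (hc : ∀ δ ∈ L.fixingSubgroup, δ • c = c) : ∃ c₀ : 𝓞 L, algebraMap (𝓞 L) (𝓞 M) c₀ = c := by
  have h1 : (c : M) ∈ fixedField L.fixingSubgroup := by
    rw [mem_fixedField_iff]
    intro f hf
    have := congrArg (fun w : 𝓞 M => (w : M)) (hc f hf)
    exact this
  rw [IsGalois.fixedField_fixingSubgroup] at h1
  have h2 : IsIntegral ℤ (⟨(c : M), h1⟩ : L) := by
    have h3 : IsIntegral ℤ (L.val ⟨(c : M), h1⟩) := c.2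
    exact (isIntegral_algHom_iff (L.val.restrictScalars ℤ) L.val.injective).1 h3
  refine ⟨⟨⟨(c : M), h1⟩, h2⟩, ?_⟩
  apply RingOfIntegers.coe_injective
  rfl

lemma exists_prime_above' {p : ℕ} (hp : p.Prime) :
    ∃ P : Ideal (𝓞 F), P.IsMaximal ∧ P ≠ ⊥ ∧ (p : 𝓞 F) ∈ P := by
  have hm := Pool.Agent.Q98.SG.maxZ hp
  obtain ⟨Q₀⟩ : Nonempty (Ideal.primesOver (Ideal.span {(p : ℤ)}) (𝓞 F)) := inferInstance
  have h2 := Q₀.2.2.over
  have h3 : (p : ℤ) ∈ Q₀.1.under ℤ := by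
    rw [← h2]; exact Ideal.subset_span rfl
  have h4 : (p : 𝓞 F) ∈ Q₀.1 := by
    simpa [Ideal.under_def, Ideal.mem_comap] using h3
  have h5 : Q₀.1 ≠ ⊥ := by
    intro h
    rw [h] at h4
    have : (p : 𝓞 F) = 0 := by simpa using h4
    exact hp.ne_zero (by exact_mod_cast this)
  have h6 : Q₀.1.IsPrime := Q₀.2.1
  exact ⟨Q₀.1, h6.isMaximal h5, h5, h4⟩

variable [IsGalois ℚ M]

/-- the degree of `x` -/
lemma degree_le {x : 𝓞 M} {H : Subgroup (M ≃ₐ[F] M)}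
    (hH : MulAction.stabilizer (M ≃ₐ[F] M) x ≤ H) {Z : Finset (𝓞 M)}
    (hZ : ∀ z, z ∈ Z ↔ ∃ h ∈ H, h • x = z) :
    (minpoly ℚ (x : M)).natDegree ≤ Module.finrank ℚ F * (Z.card * H.index) := by
  classical
  set S := MulAction.stabilizer (M ≃ₐ[ℚ] M) x with hS
  have h1 : ({x} : Finset (𝓞 M)).card * S.index = (minpoly ℚ (x : M)).natDegree := by
    apply degree_eq (H := S) le_rfl
    intro z
    rw [Finset.mem_singleton]
    constructor
    · rintro rfl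
      exact ⟨1, S.one_mem, one_smul _ _⟩
    · rintro ⟨h, hh, rfl⟩
      exact MulAction.mem_stabilizer_iff.1 hh
  rw [Finset.card_singleton, one_mul] at h1
  have h2 : Nat.card S * S.index = Nat.card (M ≃ₐ[ℚ] M) := Subgroup.card_mul_index S
  have h3 : Nat.card H * H.index = Nat.card (M ≃ₐ[F] M) := Subgroup.card_mul_index H
  have h4 := orbit_card_gen hH hZ
  have h5 := card_stab_le (F := F) x
  rw [card_rel (F := F), ← h3, ← h4] at h2
  have h6 : 0 < Nat.card S := Nat.card_pos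
  rw [← h1]
  apply Nat.le_of_mul_le_mul_left _ h6
  rw [h2]
  calc Module.finrank ℚ F * (Z.card * Nat.card (MulAction.stabilizer (M ≃ₐ[F] M) x) * H.index)
      = Nat.card (MulAction.stabilizer (M ≃ₐ[F] M) x) *
        (Module.finrank ℚ F * (Z.card * H.index)) := by ring
    _ ≤ Nat.card S * (Module.finrank ℚ F * (Z.card * H.index)) := Nat.mul_le_mul_right _ h5

/-- the inequality at one prime -/
theorem step_up (ι : M →ₐ[ℚ] ℂ) {β : ℝ} (hβ : 1 < β) (x : 𝓞 M)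
    (hx : ι (x : M) = (β : ℂ))
    (hone : ∀ γ : M ≃ₐ[ℚ] M, γ • x ≠ x → ‖ι ((γ • x : 𝓞 M) : M)‖ ≤ 1)
    (H : Subgroup (M ≃ₐ[F] M)) (hH : MulAction.stabilizer (M ≃ₐ[F] M) x ≤ H)
    (Z : Finset (𝓞 M)) (hZ : ∀ z, z ∈ Z ↔ ∃ h ∈ H, h • x = z) {p f d j : ℕ} (hp : p.Prime)
    (hd : 0 < d) (hf : 0 < f)
    (hcen : ∀ σ τ : fixedField H.normalCore ≃ₐ[F] fixedField H.normalCore,
      σ ^ d * τ = τ * σ ^ d)
    {𝔭 : Ideal (𝓞 F)} (h𝔭 : 𝔭.IsMaximal) (h0 : 𝔭 ≠ ⊥) (hp𝔭 : (p : 𝓞 F) ∈ 𝔭)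
    (hcard : Nat.card (𝓞 F ⧸ 𝔭) = p ^ f) (hnorm : Ideal.absNorm 𝔭 = p ^ f)
    (hk : (up (fixedField H.normalCore) 𝔭).radical ^ (p ^ j) ≤
      up (fixedField H.normalCore) 𝔭) :
    ((p ^ f : ℕ) : ℝ) ^ H.index ≤ 2 ^ (Z.card * H.index * Module.finrank ℚ F) *
      β ^ ((p ^ (f * d + j) + p ^ j) * Module.finrank ℚ F) := by
  classical
  have : Fact p.Prime := ⟨hp⟩
  have hg : IsGalois F M := IsGalois.tower_top_of_isGalois ℚ F M
  have hnc : H.normalCore.Normal := H.normalCore_normal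
  have hgal : IsGalois F (fixedField H.normalCore) :=
    IsGalois.of_fixedField_normal_subgroup (K := F) (L := M) H.normalCore
  obtain ⟨σ₀, hσ₀⟩ := frob_central_up (L := fixedField H.normalCore) h𝔭 h0 hcen
  obtain ⟨σ', hσ'⟩ := AlgEquiv.restrictNormalHom_surjective (F := F)
    (K₁ := fixedField H.normalCore) M σ₀
  rw [← hnorm]
  have hpup : (p : 𝓞 (fixedField H.normalCore)) ∈ up (fixedField H.normalCore) 𝔭 := by
    have h2 : algebraMap (𝓞 F) (𝓞 (fixedField H.normalCore)) (p : 𝓞 F) ∈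
      up (fixedField H.normalCore) 𝔭 := Ideal.mem_map_of_mem _ hp𝔭
    rwa [map_natCast] at h2
  have hpupM : (p : 𝓞 M) ∈ up M 𝔭 := by
    have h2 : algebraMap (𝓞 F) (𝓞 M) (p : 𝓞 F) ∈ up M 𝔭 := Ideal.mem_map_of_mem _ hp𝔭
    rwa [map_natCast] at h2
  have hpos : 0 < f * d := Nat.mul_pos hf hd
  refine norm_ineq_up ι hβ x hx hone H hH Z hZ σ'
    (Nat.pow_lt_pow_right hp.one_lt (by omega)) ?_
  refine congr_prod_ideal (up M 𝔭) Z (MulSemiringAction.toRingHom (M ≃ₐ[F] M) (𝓞 M) σ') hp hpupM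
    (f * d + j) j ?_ ((hZ x).2 ⟨1, H.one_mem, one_smul _ _⟩)
  intro n
  set c : 𝓞 M := (∏ z ∈ Z, (Polynomial.X - Polynomial.C z)).coeff n with hcdef
  have hinv : ∀ h ∈ H, h • c = c := by
    intro h hh
    refine coeff_invariant Z (MulSemiringAction.toRingHom (M ≃ₐ[F] M) (𝓞 M) h) ?_ ?_ n
    · intro a b hab
      exact (smul_left_cancel h hab : a = b)
    · intro z hz
      obtain ⟨h', hh', rfl⟩ := (hZ z).1 hz
      exact (hZ _).2 ⟨h * h', H.mul_mem hh hh', mul_smul _ _ _⟩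
  obtain ⟨c₀, hc₀⟩ := descend_up (fixedField H.normalCore) c (fun δ hδ => by
    rw [fixingSubgroup_fixedField] at hδ
    exact hinv δ (H.normalCore_le hδ))
  have h1 : (c₀ ^ ((p ^ f) ^ d) - σ₀ • c₀) ^ (p ^ j) ∈ up (fixedField H.normalCore) 𝔭 := by
    rw [← hcard]
    exact hk (Ideal.pow_mem_pow (hσ₀ c₀) _)
  have h2 : (c₀ ^ ((p ^ f) ^ d)) ^ (p ^ j) - (σ₀ • c₀) ^ (p ^ j) ∈
      up (fixedField H.normalCore) 𝔭 := sub_pow_mem _ hp hpup j h1
  have h3 : algebraMap (𝓞 (fixedField H.normalCore)) (𝓞 M) (σ₀ • c₀) = σ' • c := by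
    rw [← hc₀]
    apply RingOfIntegers.coe_injective
    show (((σ₀ • c₀ : 𝓞 (fixedField H.normalCore)) : fixedField H.normalCore) : M) =
      σ' ((c₀ : fixedField H.normalCore) : M)
    have e1 : ((σ₀ • c₀ : 𝓞 (fixedField H.normalCore)) : fixedField H.normalCore) =
      σ₀ (c₀ : fixedField H.normalCore) := rfl
    rw [e1, ← hσ']
    exact AlgEquiv.restrictNormal_commutes σ' (fixedField H.normalCore) _
  have h4 : algebraMap (𝓞 (fixedField H.normalCore)) (𝓞 M)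
      ((c₀ ^ ((p ^ f) ^ d)) ^ (p ^ j) - (σ₀ • c₀) ^ (p ^ j)) ∈ up M 𝔭 := by
    have h5 := Ideal.mem_map_of_mem (algebraMap (𝓞 (fixedField H.normalCore)) (𝓞 M)) h2
    rw [up, Ideal.map_map, ← IsScalarTower.algebraMap_eq] at h5
    exact h5
  rw [map_sub, map_pow, map_pow, map_pow, h3, hc₀, ← pow_mul, ← pow_mul, ← pow_add] at h4
  exact h4

/-- the inequality with two primes -/
theorem core_up (ι : M →ₐ[ℚ] ℂ) {β : ℝ} (hβ : 1 < β) (x : 𝓞 M)
    (hx : ι (x : M) = (β : ℂ))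
    (hone : ∀ γ : M ≃ₐ[ℚ] M, γ • x ≠ x → ‖ι ((γ • x : 𝓞 M) : M)‖ ≤ 1)
    (Δ : Subgroup (M ≃ₐ[F] M)) (hΔ : Δ.Normal) {d : ℕ} (hd : 0 < d)
    (hcen : ∀ σ τ : M ≃ₐ[F] M, σ ^ d * τ * (τ * σ ^ d)⁻¹ ∈ Δ) {p q : ℕ} (hp : p.Prime)
    (hq : q.Prime) (hpq : p ≠ q) (hpd : ¬ p ∣ d) (hqd : ¬ q ∣ d) :
    ∃ (m s r f : ℕ) (Z : Finset (𝓞 M)), (∀ z ∈ Z, ∃ δ ∈ Δ, δ • x = z) ∧
      (minpoly ℚ (x : M)).natDegree ≤ Module.finrank ℚ F * (Z.card * m) ∧ 0 < s ∧ s * s ≤ m ∧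
      (r = p ∨ r = q) ∧ 0 < f ∧ f ≤ Module.finrank ℚ F ∧
      ∀ j : ℕ, d * (r ^ f - 1) * s ≤ r ^ j →
        ((r ^ f : ℕ) : ℝ) ^ m ≤ 2 ^ (Z.card * m * Module.finrank ℚ F) *
          β ^ ((r ^ (f * d + j) + r ^ j) * Module.finrank ℚ F) := by
  classical
  have hg : IsGalois F M := IsGalois.tower_top_of_isGalois ℚ F M
  set H : Subgroup (M ≃ₐ[F] M) := Δ ⊔ MulAction.stabilizer (M ≃ₐ[F] M) x with hHdef
  have hH : MulAction.stabilizer (M ≃ₐ[F] M) x ≤ H := le_sup_right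
  have hΔH : Δ ≤ H := le_sup_left
  have hnc : H.normalCore.Normal := H.normalCore_normal
  have hΔK : Δ ≤ H.normalCore := (Subgroup.normal_le_normalCore).2 hΔH
  have hgal : IsGalois F (fixedField H.normalCore) :=
    IsGalois.of_fixedField_normal_subgroup (K := F) (L := M) H.normalCore
  set Z : Finset (𝓞 M) :=
    (Finset.univ.filter (fun h : M ≃ₐ[F] M => h ∈ H)).image (fun h => h • x) with hZdef
  have hZ : ∀ z, z ∈ Z ↔ ∃ h ∈ H, h • x = z := by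
    intro z
    rw [hZdef, Finset.mem_image]
    constructor
    · rintro ⟨h, hh, rfl⟩
      exact ⟨h, (Finset.mem_filter.1 hh).2, rfl⟩
    · rintro ⟨h, hh, rfl⟩
      exact ⟨h, Finset.mem_filter.2 ⟨Finset.mem_univ _, hh⟩, rfl⟩
  have hZΔ : ∀ z ∈ Z, ∃ δ ∈ Δ, δ • x = z := by
    intro z hz
    obtain ⟨h, hh, rfl⟩ := (hZ z).1 hz
    obtain ⟨δ, hδ, s, hs, rfl⟩ := Subgroup.mem_sup_of_normal_left.1 hh
    refine ⟨δ, hδ, ?_⟩
    rw [mul_smul, MulAction.mem_stabilizer_iff.1 hs]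
  set r0 : (M ≃ₐ[F] M) →* (fixedField H.normalCore ≃ₐ[F] fixedField H.normalCore) :=
    AlgEquiv.restrictNormalHom (fixedField H.normalCore) with hr0
  have hsurj : Function.Surjective r0 := AlgEquiv.restrictNormalHom_surjective (F := F)
    (K₁ := fixedField H.normalCore) M
  have hker : r0.ker = H.normalCore := by
    exact (IntermediateField.restrictNormalHom_ker (fixedField H.normalCore)).trans
      (fixingSubgroup_fixedField _)
  have hcen0 : ∀ σ τ : fixedField H.normalCore ≃ₐ[F] fixedField H.normalCore,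
      σ ^ d * τ = τ * σ ^ d := by
    intro σ τ
    obtain ⟨σ', rfl⟩ := hsurj σ
    obtain ⟨τ', rfl⟩ := hsurj τ
    have h1 : σ' ^ d * τ' * (τ' * σ' ^ d)⁻¹ ∈ r0.ker := by
      rw [hker]
      exact hΔK (hcen σ' τ')
    rw [MonoidHom.mem_ker, map_mul, map_inv, mul_inv_eq_one] at h1
    rw [← map_pow, ← map_mul, ← map_mul]
    exact h1
  obtain ⟨𝔭, h𝔭, h𝔭0, hp𝔭⟩ := exists_prime_above' (F := F) hp
  obtain ⟨𝔮, h𝔮, h𝔮0, hq𝔮⟩ := exists_prime_above' (F := F) hq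
  obtain ⟨fp, hfp0, hfpk, hcp, hnp⟩ := card_resid h𝔭 h𝔭0 hp hp𝔭
  obtain ⟨fq, hfq0, hfqk, hcq, hnq⟩ := card_resid h𝔮 h𝔮0 hq hq𝔮
  obtain ⟨Wp, hWp1, hWp2, hWp3⟩ :=
    ram_bound_up (L := fixedField H.normalCore) h𝔭 h𝔭0 hp hp𝔭 hd hpd hcen0
  obtain ⟨Wq, hWq1, hWq2, hWq3⟩ :=
    ram_bound_up (L := fixedField H.normalCore) h𝔮 h𝔮0 hq hq𝔮 hd hqd hcen0
  rw [hcp] at hWp3
  rw [hcq] at hWq3
  have hkerH : r0.ker ≤ H := by
    rw [hker]
    exact H.normalCore_le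
  have hU : (H.map r0).normalCore = ⊥ := by
    have h1 : ((H.map r0).normalCore.comap r0) ≤ H := by
      have h2 : (H.map r0).comap r0 = H := Subgroup.comap_map_eq_self hkerH
      calc ((H.map r0).normalCore.comap r0) ≤ (H.map r0).comap r0 :=
            Subgroup.comap_mono (Subgroup.normalCore_le _)
        _ = H := h2
    have h3 : ((H.map r0).normalCore.comap r0).Normal :=
      Subgroup.Normal.comap (Subgroup.normalCore_normal _) r0
    have h4 : ((H.map r0).normalCore.comap r0) ≤ r0.ker := by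
      rw [hker]
      exact (Subgroup.normal_le_normalCore).2 h1
    rw [eq_bot_iff]
    intro g hg
    obtain ⟨g', rfl⟩ := hsurj g
    have h5 : g' ∈ r0.ker := h4 (Subgroup.mem_comap.2 hg)
    rw [MonoidHom.mem_ker] at h5
    rw [Subgroup.mem_bot]
    exact h5
  have hidx : (H.map r0).index = H.index := Subgroup.index_map_eq H hsurj hkerH
  have hcard := central_card (H.map r0) Wp Wq hU hWp1 hWq1 hp hq hpq hWp2 hWq2
  rw [hidx] at hcard
  have hdeg := degree_le hH hZ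
  rcases le_total (Nat.card Wp) (Nat.card Wq) with h | h
  · refine ⟨H.index, Nat.card Wp, p, fp, Z, hZΔ, hdeg, Nat.card_pos,
      (Nat.mul_le_mul_left _ h).trans hcard, Or.inl rfl, hfp0, hfpk, fun j hj => ?_⟩
    exact step_up ι hβ x hx hone H hH Z hZ hp hd hfp0 hcen0 h𝔭 h𝔭0 hp𝔭 hcp hnp (hWp3 _ hj)
  · refine ⟨H.index, Nat.card Wq, q, fq, Z, hZΔ, hdeg, Nat.card_pos,
      (Nat.mul_le_mul_right _ h).trans hcard, Or.inr rfl, hfq0, hfqk, fun j hj => ?_⟩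
    exact step_up ι hβ x hx hone H hH Z hZ hq hd hfq0 hcen0 h𝔮 h𝔮0 hq𝔮 hcq hnq (hWq3 _ hj)

end

end Pool.Agent.K8h8.UB
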