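import Mathlib
import Pool.Agent.W738.SAL.E
import Pool.Agent.K8h8.UB.Core

/-!
# Parry powers of numbers of bounded degree over extensions of bounded exponent modulo the centre
of arbitrary number fields of bounded degree
-/

set_option autoImplicit false

open NumberField IntermediateField

namespace Pool.Agent.K8h8.UB

open Pool.Agent.W738.SAL Pool.Agent.K9h75.BD

lemma exists_pow_between {r N : ℕ} (hr : 2 ≤ r) (hN : 0 < N) : ∃ j : ℕ, N ≤ r ^ j ∧ r ^ j ≤ r * N := by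
  rcases Nat.lt_or_ge 1 N with h | h
  · refine ⟨Nat.clog r N, Nat.le_pow_clog (by omega) N, ?_⟩
    have h1 := Nat.pow_pred_clog_lt_self (b := r) (by omega) h
    have h2 : 0 < Nat.clog r N := Nat.clog_pos (by omega) h
    obtain ⟨c, hc⟩ : ∃ c, Nat.clog r N = c + 1 := ⟨Nat.clog r N - 1, by omega⟩
    rw [hc] at h1 ⊢
    rw [Nat.pred_succ] at h1
    rw [pow_succ']
    exact Nat.mul_le_mul_left _ h1.le
  · have : N = 1 := by omega
    subst this
    exact ⟨0, by simp, by simp; omega⟩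

/-- the numerical part -/
theorem num_up {β : ℝ} (hβ : 1 < β) {n m s r f z k' k D d P : ℕ} (hn : n ≤ k' * (z * m))
    (hz : z ≤ D) (hk' : k' ≤ k) (hs : 0 < s) (hsm : s * s ≤ m) (hr2 : 2 ≤ r) (hrP : r ≤ P)
    (hf : 0 < f) (hfk : f ≤ k') (hd : 0 < d) (h4 : 4 ^ (k * D) ≤ r) (hkD : 0 < k * D)
    (h : ∀ j : ℕ, d * (r ^ f - 1) * s ≤ r ^ j →
        ((r ^ f : ℕ) : ℝ) ^ m ≤ 2 ^ (z * m * k') * β ^ ((r ^ (f * d + j) + r ^ j) * k')) :
    (n : ℝ) ≤ k * D * (2 * k * d * P ^ (k * (d + 1) + 1) * Real.log β) ^ 2 := by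
  set Q : ℕ := r ^ f with hQ
  have hlog : 0 < Real.log β := Real.log_pos hβ
  have hrQ : r ≤ Q := Nat.le_self_pow hf.ne' r
  have hQ2 : 2 ≤ Q := hr2.trans hrQ
  have hN : 0 < d * (Q - 1) * s := by
    have : 0 < Q - 1 := by omega
    positivity
  obtain ⟨j, hj1, hj2⟩ := exists_pow_between hr2 hN
  have h1 := h j hj1
  have hm1 : 0 < m := by
    have := Nat.mul_pos hs hs
    omega
  -- first step
  have hzk : z * m * k' ≤ k * D * m := by
    calc z * m * k' ≤ D * m * k := Nat.mul_le_mul (Nat.mul_le_mul_right _ hz) hk'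
      _ = k * D * m := by ring
  have h2 : (2 : ℝ) ^ (z * m * k') ≤ 2 ^ (k * D * m) := pow_le_pow_right₀ (by norm_num) hzk
  have h3 : ((2 : ℝ) ^ (k * D * m)) ^ 2 ≤ (Q : ℝ) ^ m := by
    rw [← pow_mul, mul_comm _ 2, pow_mul, pow_mul]
    apply pow_le_pow_left₀ (by positivity)
    have h4' : (4 : ℝ) ^ (k * D) ≤ r := by exact_mod_cast h4
    have h5 : (r : ℝ) ≤ Q := by exact_mod_cast hrQ
    norm_num
    linarith
  set B : ℝ := β ^ ((r ^ (f * d + j) + r ^ j) * k') with hB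
  have hB0 : 0 < B := by positivity
  have hQ0 : (0:ℝ) < (Q : ℝ) ^ m := by positivity
  have h5 : (Q : ℝ) ^ m ≤ B ^ 2 := by
    have h6 : (Q : ℝ) ^ m ≤ 2 ^ (k * D * m) * B :=
      h1.trans (mul_le_mul_of_nonneg_right h2 hB0.le)
    have h7 : (Q : ℝ) ^ m * (Q : ℝ) ^ m ≤ (2 ^ (k * D * m) * B) * (2 ^ (k * D * m) * B) :=
      mul_le_mul h6 h6 hQ0.le (by positivity)
    have h8 : (2 ^ (k * D * m) * B) * (2 ^ (k * D * m) * B) =
        ((2 : ℝ) ^ (k * D * m)) ^ 2 * B ^ 2 := by ring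
    rw [h8] at h7
    have h9 : ((2 : ℝ) ^ (k * D * m)) ^ 2 * B ^ 2 ≤ (Q : ℝ) ^ m * B ^ 2 :=
      mul_le_mul_of_nonneg_right h3 (by positivity)
    exact le_of_mul_le_mul_left (h7.trans h9) hQ0
  have h6 : (m : ℝ) * Real.log Q ≤ 2 * (((r ^ (f * d + j) + r ^ j) * k' : ℕ) * Real.log β) := by
    have h7 := Real.log_le_log hQ0 h5
    rw [Real.log_pow, Real.log_pow, hB, Real.log_pow] at h7
    exact_mod_cast h7
  have hQ4 : (4 : ℝ) ≤ Q := by
    have h7 : 4 ^ 1 ≤ 4 ^ (k * D) := Nat.pow_le_pow_right (by norm_num) hkD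
    have h8 : 4 ≤ Q := by
      have : 4 ^ 1 ≤ Q := h7.trans (h4.trans hrQ)
      omega
    exact_mod_cast h8
  have hlogQ : 1 ≤ Real.log Q := by
    have h7 : Real.exp 1 ≤ Q := by
      have := Real.exp_one_lt_d9
      linarith
    rw [Real.le_log_iff_exp_le (by linarith)]
    exact h7
  have h7 : (m : ℝ) ≤ 2 * (((r ^ (f * d + j) + r ^ j) * k' : ℕ) * Real.log β) := by
    refine le_trans ?_ h6
    have : (0:ℝ) ≤ m := Nat.cast_nonneg _
    nlinarith
  -- the exponent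
  have h8 : r ^ (f * d + j) + r ^ j ≤ r * d * s * Q ^ (d + 1) := by
    have e1 : r ^ (f * d + j) + r ^ j = (Q ^ d + 1) * r ^ j := by
      rw [pow_add, pow_mul, hQ]; ring
    rw [e1]
    have e2 : (Q ^ d + 1) * (Q - 1) ≤ Q ^ (d + 1) := by
      obtain ⟨c, hc⟩ : ∃ c, Q = c + 1 := ⟨Q - 1, by omega⟩
      have e3 : Q ≤ Q ^ d := Nat.le_self_pow hd.ne' Q
      have e4 : Q - 1 = c := by omega
      rw [e4, pow_succ]
      calc (Q ^ d + 1) * c = Q ^ d * c + c := by ring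
        _ ≤ Q ^ d * c + Q ^ d := by omega
        _ = Q ^ d * Q := by rw [hc]; ring
    calc (Q ^ d + 1) * r ^ j ≤ (Q ^ d + 1) * (r * (d * (Q - 1) * s)) := Nat.mul_le_mul_left _ hj2
      _ = r * d * s * ((Q ^ d + 1) * (Q - 1)) := by ring
      _ ≤ r * d * s * Q ^ (d + 1) := Nat.mul_le_mul_left _ e2
  have hP1 : 1 ≤ P := by omega
  have h9 : r * Q ^ (d + 1) ≤ P ^ (k * (d + 1) + 1) := by
    rw [pow_succ' P, hQ, ← pow_mul]
    apply Nat.mul_le_mul hrP
    calc r ^ (f * (d + 1)) ≤ P ^ (f * (d + 1)) := Nat.pow_le_pow_left hrP _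
      _ ≤ P ^ (k * (d + 1)) := Nat.pow_le_pow_right hP1 (Nat.mul_le_mul_right _ (hfk.trans hk'))
  have h10 : (r ^ (f * d + j) + r ^ j) * k' ≤ s * (k * d * P ^ (k * (d + 1) + 1)) := by
    calc (r ^ (f * d + j) + r ^ j) * k' ≤ (r * d * s * Q ^ (d + 1)) * k := Nat.mul_le_mul h8 hk'
      _ = s * (k * d * (r * Q ^ (d + 1))) := by ring
      _ ≤ s * (k * d * P ^ (k * (d + 1) + 1)) :=
          Nat.mul_le_mul_left _ (Nat.mul_le_mul_left _ h9)
  set A : ℝ := 2 * k * d * P ^ (k * (d + 1) + 1) * Real.log β with hA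
  have hA0 : 0 ≤ A := by positivity
  have h11 : (m : ℝ) ≤ s * A := by
    refine h7.trans ?_
    have e1 : (((r ^ (f * d + j) + r ^ j) * k' : ℕ) : ℝ) ≤
        ((s * (k * d * P ^ (k * (d + 1) + 1)) : ℕ) : ℝ) := by exact_mod_cast h10
    have e2 := mul_le_mul_of_nonneg_right e1 hlog.le
    have e3 : 2 * (((s * (k * d * P ^ (k * (d + 1) + 1)) : ℕ) : ℝ) * Real.log β) = s * A := by
      rw [hA]; push_cast; ring
    linarith
  have h12 : (m : ℝ) ≤ A ^ 2 := by
    have e1 : ((s : ℝ)) ^ 2 ≤ m := by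
      have : ((s * s : ℕ) : ℝ) ≤ m := by exact_mod_cast hsm
      push_cast at this
      nlinarith
    have e2 : (m : ℝ) ^ 2 ≤ (s * A) ^ 2 := pow_le_pow_left₀ (Nat.cast_nonneg _) h11 2
    have e3 : (s * A) ^ 2 ≤ m * A ^ 2 := by
      rw [mul_pow]
      exact mul_le_mul_of_nonneg_right e1 (by positivity)
    have e4 : (m : ℝ) * m ≤ m * A ^ 2 := by
      calc (m : ℝ) * m = (m : ℝ) ^ 2 := by ring
        _ ≤ _ := e2.trans e3
    exact le_of_mul_le_mul_left e4 (by exact_mod_cast hm1)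
  have h13 : (n : ℝ) ≤ k * D * m := by
    have e1 : n ≤ k * D * m := by
      calc n ≤ k' * (z * m) := hn
        _ ≤ k * (D * m) := Nat.mul_le_mul hk' (Nat.mul_le_mul_right _ hz)
        _ = k * D * m := by ring
    exact_mod_cast e1
  refine h13.trans ?_
  exact mul_le_mul_of_nonneg_left h12 (by positivity)

section

variable {F M : Type} [Field F] [NumberField F] [Field M] [NumberField M] [Algebra F M]
  [IsGalois ℚ M]

theorem abs_up (ι : M →ₐ[ℚ] ℂ) {β : ℝ} (hβ : 1 < β) (x : 𝓞 M)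
    (hx : ι (x : M) = (β : ℂ))
    (hone : ∀ z : ℂ, Polynomial.aeval z (minpoly ℚ (x : M)) = 0 → z ≠ (β : ℂ) → ‖z‖ ≤ 1)
    {L : Type} [Field L] [Algebra F L] [Algebra L M] [IsScalarTower F L M] [Normal F L]
    {d : ℕ} (hd : 0 < d) (hcen : ∀ σ τ : L ≃ₐ[F] L, σ ^ d * τ = τ * σ ^ d)
    {P : Polynomial L} (hP : P ≠ 0) (hPx : Polynomial.aeval (x : M) P = 0) {k D : ℕ}
    (hk : Module.finrank ℚ F ≤ k) (hkD : 0 < k * D)
    (hD : P.natDegree ≤ D) {p q : ℕ} (hp : p.Prime)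
    (hq : q.Prime) (hpq : p < q) (hpd : ¬ p ∣ d) (hqd : ¬ q ∣ d) (h4 : 4 ^ (k * D) ≤ p) :
    ((minpoly ℚ (x : M)).natDegree : ℝ) ≤
      k * D * (2 * k * d * q ^ (k * (d + 1) + 1) * Real.log β) ^ 2 := by
  classical
  set r0 : (M ≃ₐ[F] M) →* (L ≃ₐ[F] L) := AlgEquiv.restrictNormalHom L with hr0
  have hone' : ∀ γ : M ≃ₐ[ℚ] M, γ • x ≠ x → ‖ι ((γ • x : 𝓞 M) : M)‖ ≤ 1 := by
    intro γ hγ
    apply hone
    · have h1 : ((γ • x : 𝓞 M) : M) = γ (x : M) := coe_smul' γ x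
      rw [h1, Polynomial.aeval_algHom_apply]
      have h2 : Polynomial.aeval (γ (x : M)) (minpoly ℚ (x : M)) = 0 := by
        have := Polynomial.aeval_algHom_apply (γ : M →ₐ[ℚ] M) (x : M) (minpoly ℚ (x : M))
        rw [minpoly.aeval, map_zero] at this
        exact this
      rw [h2, map_zero]
    · intro h
      apply hγ
      apply RingOfIntegers.coe_injective
      exact ι.injective (h.trans hx.symm)
  obtain ⟨m, s, r, f, Z, hZΔ, hdeg, hs, hsm, hr, hf, hfk, h⟩ := core_up ι hβ x hx hone' r0.ker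
    inferInstance hd
    (fun σ τ => by
      rw [MonoidHom.mem_ker, map_mul, map_inv, mul_inv_eq_one, map_mul, map_mul, map_pow]
      exact hcen _ _) hp hq hpq.ne hpd hqd
  have hcard : Z.card ≤ P.natDegree := by
    have h1 : ∀ z ∈ Z, (z : M) ∈ (P.map (algebraMap L M)).roots.toFinset := by
      intro z hz
      obtain ⟨δ, hδ, rfl⟩ := hZΔ z hz
      rw [Multiset.mem_toFinset, Polynomial.mem_roots (Polynomial.map_ne_zero hP),
        Polynomial.IsRoot.def, Polynomial.eval_map]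
      have h3 : ∀ y : L, δ (algebraMap L M y) = algebraMap L M y := by
        intro y
        have h4 := AlgEquiv.restrictNormal_commutes δ L y
        have h5 : δ.restrictNormal L = 1 := hδ
        rw [h5] at h4
        exact h4.symm
      have h6 : (δ : M →+* M).comp (algebraMap L M) = algebraMap L M := by
        ext y
        exact h3 y
      have h7 := congrArg (δ : M →+* M) hPx
      rw [Polynomial.aeval_def, Polynomial.hom_eval₂, h6, map_zero] at h7
      exact h7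
    have h2 : Z.card ≤ (P.map (algebraMap L M)).roots.toFinset.card :=
      Finset.card_le_card_of_injOn (fun z : 𝓞 M => (z : M)) h1
        (fun a _ b _ hab => RingOfIntegers.coe_injective hab)
    calc Z.card ≤ (P.map (algebraMap L M)).roots.toFinset.card := h2
      _ ≤ (P.map (algebraMap L M)).roots.card := Multiset.toFinset_card_le _
      _ ≤ (P.map (algebraMap L M)).natDegree := Polynomial.card_roots' _
      _ = P.natDegree := Polynomial.natDegree_map _
  have hr2 : 2 ≤ r := by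
    rcases hr with rfl | rfl
    · exact hp.two_le
    · exact hq.two_le
  have hrq : r ≤ q := by
    rcases hr with rfl | rfl
    · exact hpq.le
    · exact le_rfl
  have h4r : 4 ^ (k * D) ≤ r := by
    rcases hr with rfl | rfl
    · exact h4
    · exact h4.trans hpq.le
  exact num_up hβ hdeg (hcard.trans hD) hk hs hsm hr2 hrq hf hfk hd h4r hkD h

end

end Pool.Agent.K8h8.UB
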