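import Mathlib
import Pool.Agent.K8h8.UB.Main

/-!
# Parry powers of numbers of bounded degree over extensions of bounded exponent modulo the centre
of arbitrary number fields of bounded degree: the form in `ℂ`
-/

set_option autoImplicit false

open NumberField IntermediateField

namespace Pool.Agent.K8h8.UB

open Pool.Agent.W738.SAL Pool.Agent.K9h75.BD

/-- a finite extension of `ℚ` in `ℂ` lies in a finite Galois extension -/
lemma exists_galois (E : IntermediateField ℚ ℂ) [FiniteDimensional ℚ E] :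
    ∃ M : IntermediateField ℚ ℂ, E ≤ M ∧ FiniteDimensional ℚ M ∧ Normal ℚ M := by
  refine ⟨normalClosure ℚ E ℂ, le_normalClosure E, inferInstance, ?_⟩
  have h := Algebra.IsAlgebraic.isNormalClosure_normalClosure (F := ℚ) (K := E) (L := ℂ)
    (fun x => IsAlgClosed.splits _)
  exact h.normal

theorem main_up {β : ℝ} (hP : IsPerron β) (K : IntermediateField ℚ ℂ) [FiniteDimensional ℚ K]
    (L : IntermediateField K ℂ) [hLn : Normal K L] {k d D : ℕ} (hk : Module.finrank ℚ K ≤ k)
    (hd : 0 < d) (hcen : ∀ σ τ : L ≃ₐ[K] L, σ ^ d * τ = τ * σ ^ d)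
    (hD : (minpoly L (β : ℂ)).natDegree ≤ D) {p q : ℕ} (hp : p.Prime)
    (hq : q.Prime) (hpq : p < q) (hpd : ¬ p ∣ d) (hqd : ¬ q ∣ d) (h4 : 4 ^ (k * D) ≤ p)
    (hdeg : k * D * (2 * k * d * q ^ (k * (d + 1) + 1) * Real.log β) ^ 2 <
      ((minpoly ℚ β).natDegree : ℝ)) :
    (ParryPowers β).Finite := by
  classical
  by_contra hinf
  have hone : ∀ z : ℂ, Polynomial.aeval z (minpoly ℤ β) = 0 → z ≠ (β : ℂ) → ‖z‖ ≤ 1 :=
    fun z hz hne => one_of_inf hP hinf hz hne
  -- integrality
  have hint : IsIntegral ℤ (β : ℂ) := by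
    have := hP.2.1.map (Complex.ofRealAm.restrictScalars ℤ)
    exact this
  have hintQ : IsIntegral ℚ (β : ℂ) := hint.tower_top
  have hintK : IsIntegral K (β : ℂ) := hintQ.tower_top
  have hintL : IsIntegral L (β : ℂ) := hintK.tower_top
  have halg : Algebra.IsAlgebraic K L := hLn.toIsAlgebraic
  have halgQ : Algebra.IsAlgebraic ℚ K := Algebra.IsAlgebraic.of_finite ℚ K
  -- the coefficients
  set P0 : Polynomial L := minpoly L (β : ℂ) with hP0
  have hP0m : P0.Monic := minpoly.monic hintL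
  have hD1 : 0 < P0.natDegree := minpoly.natDegree_pos hintL
  set S : Set ℂ := insert (β : ℂ) (((P0.support).image (fun n => ((P0.coeff n : L) : ℂ)) : Finset ℂ) :
    Set ℂ) with hS
  have hSfin : S.Finite := (Finset.finite_toSet _).insert _
  have hSint : ∀ z ∈ S, IsIntegral ℚ z := by
    intro z hz
    rcases hz with rfl | hz
    · exact hintQ
    · obtain ⟨n, -, rfl⟩ := Finset.mem_image.1 (Finset.mem_coe.1 hz)
      have h1 : IsIntegral K ((P0.coeff n : L) : ℂ) :=
        (Algebra.IsIntegral.isIntegral (R := K) (P0.coeff n)).map L.val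
      exact isIntegral_trans (R := ℚ) (A := K) _ h1
  have : Finite S := hSfin
  have hE : FiniteDimensional ℚ (adjoin ℚ S) := finiteDimensional_adjoin hSint
  have hE2 : FiniteDimensional ℚ (K ⊔ adjoin ℚ S : IntermediateField ℚ ℂ) :=
    IntermediateField.finiteDimensional_sup K (adjoin ℚ S)
  obtain ⟨M0, hEM, hMf, hMn⟩ := exists_galois (K ⊔ adjoin ℚ S)
  have hKM : K ≤ M0 := le_sup_left.trans hEM
  have hSM0 : ∀ z ∈ S, z ∈ M0 := fun z hz => hEM (le_sup_right (a := K) (subset_adjoin ℚ S hz))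
  set M : IntermediateField K ℂ := extendScalars hKM with hM
  have hSM : ∀ z ∈ S, z ∈ M := fun z hz => hSM0 z hz
  have e0 : M.restrictScalars ℚ = M0 := extendScalars_restrictScalars hKM
  have hMf' : FiniteDimensional ℚ M := by
    have : FiniteDimensional ℚ (M.restrictScalars ℚ) := by rw [e0]; exact hMf
    exact this
  have hMn' : Normal ℚ M := by
    have : Normal ℚ (M.restrictScalars ℚ) := by rw [e0]; exact hMn
    exact this
  have hMnK : Normal K M := Normal.tower_top_of_normal ℚ K M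
  have hβM : (β : ℂ) ∈ M := hSM _ (Set.mem_insert _ _)
  have hcM : ∀ n, ((P0.coeff n : L) : ℂ) ∈ M := by
    intro n
    by_cases h : n ∈ P0.support
    · exact hSM _ (Set.mem_insert_of_mem _ (Finset.mem_coe.2 (Finset.mem_image.2 ⟨n, h, rfl⟩)))
    · rw [Polynomial.notMem_support_iff.1 h]
      exact M.zero_mem
  -- the field `L ⊓ M`
  have hL'n : Normal K (L ⊓ M : IntermediateField K ℂ) :=
    @IntermediateField.normal_inf K ℂ _ _ _ L M hLn hMnK
  let i1 : (L ⊓ M : IntermediateField K ℂ) →ₐ[K] L := inclusion inf_le_left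
  let i2 : (L ⊓ M : IntermediateField K ℂ) →ₐ[K] M := inclusion inf_le_right
  let a1 : Algebra (L ⊓ M : IntermediateField K ℂ) L := i1.toRingHom.toAlgebra
  let a2 : Algebra (L ⊓ M : IntermediateField K ℂ) M := i2.toRingHom.toAlgebra
  have s1 : IsScalarTower K (L ⊓ M : IntermediateField K ℂ) L :=
    IsScalarTower.of_algebraMap_eq (fun r => (i1.commutes r).symm)
  have s2 : IsScalarTower K (L ⊓ M : IntermediateField K ℂ) M :=
    IsScalarTower.of_algebraMap_eq (fun r => (i2.commutes r).symm)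
  have hcen' : ∀ σ τ : (L ⊓ M : IntermediateField K ℂ) ≃ₐ[K] (L ⊓ M : IntermediateField K ℂ),
      σ ^ d * τ = τ * σ ^ d := by
    intro σ τ
    obtain ⟨σ', rfl⟩ := AlgEquiv.restrictNormalHom_surjective (F := K)
      (K₁ := (L ⊓ M : IntermediateField K ℂ)) L σ
    obtain ⟨τ', rfl⟩ := AlgEquiv.restrictNormalHom_surjective (F := K)
      (K₁ := (L ⊓ M : IntermediateField K ℂ)) L τ
    rw [← map_pow, ← map_mul, ← map_mul, hcen]
  have hlift : P0 ∈ Polynomial.lifts i1.toRingHom := by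
    rw [Polynomial.lifts_iff_coeff_lifts]
    intro n
    exact ⟨⟨((P0.coeff n : L) : ℂ), ⟨(P0.coeff n).2, hcM n⟩⟩, rfl⟩
  obtain ⟨P, hP1, hP2, hP3⟩ := Polynomial.lifts_and_natDegree_eq_and_monic hlift hP0m
  -- the element
  have hxint : IsIntegral ℤ (⟨(β : ℂ), hβM⟩ : M) := by
    have h3 : IsIntegral ℤ (M.val ⟨(β : ℂ), hβM⟩) := hint
    exact (isIntegral_algHom_iff (M.val.restrictScalars ℤ) M.val.injective).1 h3
  have hnfK : NumberField K := ⟨⟩
  have hnf : NumberField M := ⟨⟩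
  have hgal : IsGalois ℚ M := ⟨⟩
  set x : 𝓞 M := ⟨⟨(β : ℂ), hβM⟩, hxint⟩ with hxdef
  have e1 : minpoly ℚ (x : M) = minpoly ℚ (β : ℂ) :=
    (minpoly.algHom_eq (M.val.restrictScalars ℚ) M.val.injective (x : M)).symm
  have e2 : minpoly ℚ (β : ℂ) = minpoly ℚ β :=
    minpoly.algHom_eq (Complex.ofRealAm.restrictScalars ℚ) Complex.ofReal_injective β
  have hk0 : 0 < Module.finrank ℚ K := Module.finrank_pos
  have hkD : 0 < k * D := Nat.mul_pos (hk0.trans_le hk) (hD1.trans_le hD)
  have hmain := abs_up (M := M) (M.val.restrictScalars ℚ) hP.1 x rfl ?_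
    (L := (L ⊓ M : IntermediateField K ℂ)) hd
    hcen' (P := P) hP3.ne_zero ?_ hk hkD (hP2.le.trans hD) hp hq hpq hpd hqd h4
  · rw [e1, e2] at hmain
    linarith
  · intro z hz hne
    apply hone z _ hne
    have e3 : minpoly ℚ (x : M) = (minpoly ℤ β).map (algebraMap ℤ ℚ) := by
      rw [e1, e2]
      exact minpoly.isIntegrallyClosed_eq_field_fractions' ℚ hP.2.1
    have e4 : Polynomial.aeval z ((minpoly ℤ β).map (algebraMap ℤ ℚ)) = 0 := by
      rw [← e3]
      exact hz
    rw [Polynomial.aeval_map_algebraMap] at e4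
    exact e4
  · apply M.val.injective
    rw [map_zero]
    have h1 : Polynomial.aeval (β : ℂ) P0 = 0 := minpoly.aeval L (β : ℂ)
    rw [← hP1, Polynomial.aeval_def, Polynomial.eval₂_map] at h1
    exact (Polynomial.hom_eval₂ P (algebraMap _ M) M.val.toRingHom (x : M)).trans h1

/-- the qualitative form: a bound depending on `B`, `k`, `d`, `D` only -/
theorem exists_bound_up (B : ℝ) (k d D : ℕ) (hd : 0 < d) : ∃ N : ℕ, ∀ (β : ℝ)
    (K : IntermediateField ℚ ℂ) (L : IntermediateField K ℂ), IsPerron β → β ≤ B →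
    FiniteDimensional ℚ K → Module.finrank ℚ K ≤ k → Normal K L →
    (∀ σ τ : L ≃ₐ[K] L, σ ^ d * τ = τ * σ ^ d) → (minpoly L (β : ℂ)).natDegree ≤ D →
    N < (minpoly ℚ β).natDegree → (ParryPowers β).Finite := by
  obtain ⟨p, hp1, hp⟩ := Nat.exists_infinite_primes (max (d + 1) (4 ^ (k * D)))
  obtain ⟨q, hq1, hq⟩ := Nat.exists_infinite_primes (p + 1)
  have hdp : d < p := by
    have := le_max_left (d + 1) (4 ^ (k * D))
    omega
  have h4 : 4 ^ (k * D) ≤ p := (le_max_right (d + 1) (4 ^ (k * D))).trans hp1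
  obtain ⟨N, hN⟩ := exists_nat_ge (k * D * (2 * k * d * (q : ℝ) ^ (k * (d + 1) + 1) *
    Real.log B) ^ 2)
  refine ⟨N, fun β K L hP hB hfd hk hn hcen hD hdeg => ?_⟩
  refine main_up hP K L hk hd hcen hD hp hq (by omega)
    (fun h => absurd (Nat.le_of_dvd hd h) (by omega))
    (fun h => absurd (Nat.le_of_dvd hd h) (by omega)) h4 ?_
  have h1 : (N : ℝ) < ((minpoly ℚ β).natDegree : ℝ) := by exact_mod_cast hdeg
  refine lt_of_le_of_lt (le_trans ?_ hN) h1
  have hlog : 0 ≤ Real.log β := Real.log_nonneg hP.1.le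
  have hlog2 : Real.log β ≤ Real.log B := Real.log_le_log (by linarith [hP.1]) hB
  gcongr

end Pool.Agent.K8h8.UB
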